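import Pool.Agent.W534.PoleDefs
import Pool.Agent.Q68.FD.Defs

/-!
# Geometric and Galois coniveau over finite fields: definitions
-/

open CategoryTheory AlgebraicGeometry

universe u v

namespace Pool.Agent.Q68.GT

open Pool.Agent.H914 Pool.Agent.W534 VarClass Obj WeilCohomology

variable {k : Type u} [Field k] {𝒱 : VarClass k} {ops : CycleOps 𝒱}

/-- The geometric coniveau filtration `N^ν H^i(X)`: the span of the images of the spaces
`H^(i - 2 ν)(Y)` under the algebraic correspondences of degree `ν` from `Y` to `X`, that is, those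
given by cycles of codimension `dim Y + ν` on `Y × X`; `Y` is any variety. (The components of such a
cycle have dimension `dim X - ν`, so that these images are supported in codimension `ν`. The Gysin
homomorphisms of morphisms from varieties of dimension `dim X - ν` are of this form.) -/
def geoConiv (W : WeilCohomology.{u, v} ops) (X : 𝒱.Obj) (i ν : ℕ) : Submodule W.K (W.H X) :=
  Submodule.span W.K {x | ∃ (Y : 𝒱.Obj) (z : (Y.prod X).Cycles) (j : ℕ) (y : W.H Y),
    (Y.prod X).IsCyc (Y.dim + ν) z ∧ y ∈ W.gr Y j ∧ j + 2 * ν = i ∧ x = W.corr (W.cl _ z) y}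

variable {W : WeilCohomology.{u, v} ops} {p : ℕ}

/-- The generalized Tate conjecture for `H^i(X)` and coniveau `ν`, over an algebraic closure of a
finite field: for each finite field over which `X` is defined, with `q` elements, the generalised
eigenspaces of the Frobenius endomorphism in `H^i(X)` for the eigenvalues `α` such that `α / q^ν` is
an algebraic integer are contained in `N^ν H^i(X)`. -/
def GTCIn (Φ : FrobSystem W p) (X : 𝒱.Obj) (i ν : ℕ) : Prop :=
  ∀ s, 0 < s → ∀ α : W.K, IsIntegral ℤ (α / (card Φ X s : W.K) ^ ν) →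
    Module.End.maxGenEigenspace (W.map (W534.iter (Φ.Fr X) s)).toLinearMap α ⊓ W.gr X i ≤
      geoConiv W X i ν

/-- The bound: `(2 R A + 1) ^ R`, `R = (A + 1) ^ r`. -/
def boundG (r A : ℕ) : ℕ := (2 * (A + 1) ^ r * A + 1) ^ (A + 1) ^ r

end Pool.Agent.Q68.GT
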