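import Pool.Agent.Q68.FD.Comb
import Pool.Agent.Q68.GT.Defs

/-!
# Splitting of lists of vectors above a level
-/

set_option autoImplicit false

namespace Pool.Agent.Q68.GT

open Pool.Agent.Q68.FD

lemma bound_mono {c r A : ℕ} (h : c ≤ r) : (2 * c * A + 1) ^ c ≤ (2 * r * A + 1) ^ r := by
  calc (2 * c * A + 1) ^ c ≤ (2 * r * A + 1) ^ c := by
        apply Nat.pow_le_pow_left
        have : 2 * c * A ≤ 2 * r * A := Nat.mul_le_mul_right _ (Nat.mul_le_mul_left _ h)
        omega
    _ ≤ (2 * r * A + 1) ^ r := Nat.pow_le_pow_right (by omega) h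

section

variable {β R : Type*}

/-- The vectors: those of the list, the vector `- D (1, ..., 1)` and minus the unit vectors. -/
def ext [DecidableEq R] {c : ℕ} (e : Fin c → R) (D : ℕ) (m : β → R → ℕ) :
    β ⊕ Option R → Fin c → ℤ
  | Sum.inl x, k => m x (e k)
  | Sum.inr none, _ => -(D : ℤ)
  | Sum.inr (some ρ), k => if e k = ρ then -1 else 0

/-- The members of the list of the first kind. -/
def lefts (L : List (β ⊕ Option R)) : List β := L.filterMap Sum.getLeft?

/-- The indicator of the second kind. -/
def cn : β ⊕ Option R → ℕ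
  | Sum.inr none => 1
  | _ => 0

/-- The indicator of the third kind. -/
def cs [DecidableEq R] (ρ : R) : β ⊕ Option R → ℕ
  | Sum.inr (some ρ') => if ρ = ρ' then 1 else 0
  | _ => 0

lemma ext_sum [DecidableEq R] {c : ℕ} (e : Fin c → R) (D : ℕ) (m : β → R → ℕ)
    (L : List (β ⊕ Option R)) (k : Fin c) :
    (L.map fun y => ext e D m y k).sum = (((lefts L).map fun x => m x (e k)).sum : ℕ) -
      D * ((L.map cn).sum : ℤ) - ((L.map (cs (e k))).sum : ℤ) := by
  induction L with
  | nil => simp [lefts]
  | cons y L ih =>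
    rw [List.map_cons, List.sum_cons, ih, List.map_cons, List.sum_cons, List.map_cons,
      List.sum_cons]
    rcases y with x | (_ | ρ)
    · have h1 : lefts (Sum.inl x :: L : List (β ⊕ Option R)) = x :: lefts L := rfl
      have h2 : ext e D m (Sum.inl x) k = m x (e k) := rfl
      have h3 : cn (Sum.inl x : β ⊕ Option R) = 0 := rfl
      have h4 : cs (e k) (Sum.inl x : β ⊕ Option R) = 0 := rfl
      rw [h1, h2, h3, h4, List.map_cons, List.sum_cons]
      push_cast
      ring
    · have h1 : lefts (Sum.inr none :: L : List (β ⊕ Option R)) = lefts L := rfl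
      have h2 : ext e D m (Sum.inr none) k = -(D : ℤ) := rfl
      have h3 : cn (Sum.inr none : β ⊕ Option R) = 1 := rfl
      have h4 : cs (e k) (Sum.inr none : β ⊕ Option R) = 0 := rfl
      rw [h1, h2, h3, h4]
      push_cast
      ring
    · have h1 : lefts (Sum.inr (some ρ) :: L : List (β ⊕ Option R)) = lefts L := rfl
      have h2 : ext e D m (Sum.inr (some ρ)) k = if e k = ρ then -1 else 0 := rfl
      have h3 : cn (Sum.inr (some ρ) : β ⊕ Option R) = 0 := rfl
      have h4 : cs (e k) (Sum.inr (some ρ) : β ⊕ Option R) = if e k = ρ then 1 else 0 := rfl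
      rw [h1, h2, h3, h4]
      split_ifs
      · push_cast
        ring
      · push_cast
        ring

end

/-- **Splitting above a level.** -/
theorem exists_split_ge {β R : Type*} [Fintype R] [Nonempty R] {r A D : ℕ}
    (hR : Fintype.card R ≤ r) (hD : 0 < D) (hDA : D ≤ A) (m : β → R → ℕ)
    (hm : ∀ x ρ, m x ρ ≤ A) (l : List β) (hl : l ≠ []) (ν : ℕ)
    (h : ∀ ρ, D * ν ≤ (l.map fun x => m x ρ).sum) :
    ∃ (l₁ l₂ : List β) (ν₁ ν₂ : ℕ), l.Perm (l₁ ++ l₂) ∧ l₁ ≠ [] ∧
      l₁.length ≤ (2 * r * A + 1) ^ r ∧ ν₁ + ν₂ = ν ∧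
      (∀ ρ, D * ν₁ ≤ (l₁.map fun x => m x ρ).sum) ∧
      ∀ ρ, D * ν₂ ≤ (l₂.map fun x => m x ρ).sum := by
  classical
  set c := Fintype.card R with hc
  let e : Fin c ≃ R := (Fintype.equivFin R).symm
  let slack : R → ℕ := fun ρ => (l.map fun x => m x ρ).sum - D * ν
  let L : List (β ⊕ Option R) := l.map Sum.inl ++ (List.replicate ν (Sum.inr none) ++
    (Finset.univ : Finset R).toList.flatMap fun ρ =>
      List.replicate (slack ρ) (Sum.inr (some ρ)))
  have hleft : lefts L = l := by
    have h1 : ∀ l : List β, lefts (l.map Sum.inl : List (β ⊕ Option R)) = l := by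
      intro l
      induction l with
      | nil => rfl
      | cons a l ih =>
        change a :: lefts (l.map Sum.inl : List (β ⊕ Option R)) = a :: l
        rw [ih]
    have h2 : lefts (List.replicate ν (Sum.inr none) : List (β ⊕ Option R)) = [] := by
      unfold lefts
      rw [List.filterMap_eq_nil_iff]
      intro a ha
      rw [List.eq_of_mem_replicate ha]
      rfl
    have h3 : lefts ((Finset.univ : Finset R).toList.flatMap fun ρ =>
      (List.replicate (slack ρ) (Sum.inr (some ρ)) : List (β ⊕ Option R))) = [] := by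
      unfold lefts
      rw [List.filterMap_eq_nil_iff]
      intro a ha
      obtain ⟨ρ, -, h4⟩ := List.mem_flatMap.1 ha
      rw [List.eq_of_mem_replicate h4]
      rfl
    have h4 : lefts L = lefts (l.map Sum.inl : List (β ⊕ Option R)) ++
        (lefts (List.replicate ν (Sum.inr none) : List (β ⊕ Option R)) ++
          lefts ((Finset.univ : Finset R).toList.flatMap fun ρ =>
            (List.replicate (slack ρ) (Sum.inr (some ρ)) : List (β ⊕ Option R)))) := by
      unfold lefts
      rw [List.filterMap_append, List.filterMap_append]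
    rw [h4, h1, h2, h3, List.append_nil, List.append_nil]
  have hcn : (L.map cn).sum = ν := by
    have h1 : ((l.map Sum.inl : List (β ⊕ Option R)).map cn).sum = 0 := by
      apply List.sum_eq_zero
      intro x hx
      obtain ⟨y, hy, rfl⟩ := List.mem_map.1 hx
      obtain ⟨z, -, rfl⟩ := List.mem_map.1 hy
      rfl
    have h2 : (((Finset.univ : Finset R).toList.flatMap fun ρ =>
      (List.replicate (slack ρ) (Sum.inr (some ρ)) : List (β ⊕ Option R))).map cn).sum = 0 := by
      apply List.sum_eq_zero
      intro x hx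
      obtain ⟨y, hy, rfl⟩ := List.mem_map.1 hx
      obtain ⟨ρ, -, h4⟩ := List.mem_flatMap.1 hy
      rw [List.eq_of_mem_replicate h4]
      rfl
    rw [List.map_append, List.map_append, List.sum_append, List.sum_append, h1, h2,
      List.map_replicate, List.sum_replicate]
    change 0 + (ν • 1 + 0) = ν
    simp
  have hcs : ∀ ρ, (L.map (cs ρ)).sum = slack ρ := by
    intro ρ
    have h1 : ((l.map Sum.inl : List (β ⊕ Option R)).map (cs ρ)).sum = 0 := by
      apply List.sum_eq_zero
      intro x hx
      obtain ⟨y, hy, rfl⟩ := List.mem_map.1 hx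
      obtain ⟨z, -, rfl⟩ := List.mem_map.1 hy
      rfl
    have h2 : ((List.replicate ν (Sum.inr none) : List (β ⊕ Option R)).map (cs ρ)).sum = 0 := by
      rw [List.map_replicate, List.sum_replicate]
      change ν • 0 = 0
      simp
    have h3 : ∀ s : List R, s.Nodup → ((s.flatMap fun ρ =>
      (List.replicate (slack ρ) (Sum.inr (some ρ)) : List (β ⊕ Option R))).map (cs ρ)).sum =
        if ρ ∈ s then slack ρ else 0 := by
      intro s hs
      induction s with
      | nil => simp
      | cons a s ih =>
        rw [List.flatMap_cons, List.map_append, List.sum_append, ih hs.of_cons,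
          List.map_replicate, List.sum_replicate]
        change slack a • (if ρ = a then 1 else 0) + _ = _
        by_cases ha : ρ = a
        · subst ha
          have h4 : ρ ∉ s := (List.nodup_cons.1 hs).1
          rw [if_pos rfl, if_neg h4, if_pos List.mem_cons_self]
          simp
        · have h6 : ρ ∈ a :: s ↔ ρ ∈ s := by
            rw [List.mem_cons]
            constructor
            · rintro (h | h)
              · exact absurd h ha
              · exact h
            · exact Or.inr
          rw [if_neg ha, smul_zero, zero_add]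
          simp only [h6]
    rw [List.map_append, List.map_append, List.sum_append, List.sum_append, h1, h2,
      h3 _ (Finset.nodup_toList _), if_pos (Finset.mem_toList.2 (Finset.mem_univ ρ))]
    omega
  have hu : ∀ y k, |ext e D m y k| ≤ ((A : ℕ) : ℤ) := by
    intro y k
    rcases y with x | (_ | ρ)
    · change |((m x (e k) : ℕ) : ℤ)| ≤ A
      rw [abs_of_nonneg (Int.natCast_nonneg _)]
      exact_mod_cast hm x (e k)
    · change |(-(D : ℤ))| ≤ A
      rw [abs_neg, abs_of_nonneg (Int.natCast_nonneg _)]
      exact_mod_cast hDA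
    · change |(if e k = ρ then (-1 : ℤ) else 0)| ≤ A
      split_ifs
      · rw [abs_neg, abs_one]
        exact_mod_cast hD.trans_le hDA
      · rw [abs_zero]
        exact Int.natCast_nonneg _
  have hsum : ∀ k, (L.map fun y => ext e D m y k).sum = 0 := by
    intro k
    rw [ext_sum, hleft, hcn, hcs]
    have h1 := h (e k)
    change (((l.map fun x => m x (e k)).sum : ℕ) : ℤ) - D * (ν : ℤ) -
      (((l.map fun x => m x (e k)).sum - D * ν : ℕ) : ℤ) = 0
    rw [Nat.cast_sub h1]
    push_cast
    ring
  have hL : L ≠ [] := by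
    intro h1
    apply hl
    rw [← hleft, h1]
    rfl
  obtain ⟨L₁, L₂, hp, h1, h2, h3⟩ := exists_split (ext e D m) hu L hL hsum
  have h4 : ∀ k, (L₂.map fun y => ext e D m y k).sum = 0 := by
    intro k
    have h5 := hsum k
    rw [(hp.map (fun y => ext e D m y k)).sum_eq, List.map_append, List.sum_append, h3 k,
      zero_add] at h5
    exact h5
  have hge : ∀ L' : List (β ⊕ Option R), (∀ k, (L'.map fun y => ext e D m y k).sum = 0) → ∀ ρ,
      D * (L'.map cn).sum + (L'.map (cs ρ)).sum =
        ((lefts L').map fun x => m x ρ).sum := by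
    intro L' h5 ρ
    have h6 := h5 (e.symm ρ)
    rw [ext_sum, Equiv.apply_symm_apply] at h6
    zify
    push_cast at h6 ⊢
    linarith
  refine ⟨lefts L₁, lefts L₂, (L₁.map cn).sum, (L₂.map cn).sum, ?_, ?_, ?_, ?_, ?_, ?_⟩
  · have h5 := hp.filterMap Sum.getLeft?
    have h6 : L.filterMap Sum.getLeft? = l := hleft
    rw [h6, List.filterMap_append] at h5
    exact h5
  · intro hnil
    apply h1
    have h5 := hge L₁ h3
    rw [hnil] at h5
    simp only [List.map_nil, List.sum_nil] at h5
    rw [List.eq_nil_iff_forall_not_mem]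
    rintro (x | (_ | ρ)) hx
    · have : x ∈ lefts L₁ := List.mem_filterMap.2 ⟨_, hx, rfl⟩
      rw [hnil] at this
      exact List.not_mem_nil this
    · obtain ⟨ρ⟩ := ‹Nonempty R›
      have h6 := h5 ρ
      have h7 : 1 ≤ (L₁.map cn).sum :=
        List.single_le_sum (fun _ _ => Nat.zero_le _) 1 (List.mem_map.2 ⟨_, hx, rfl⟩)
      have h8 : 0 < D * (L₁.map cn).sum := Nat.mul_pos hD h7
      omega
    · have h6 := h5 ρ
      have h7 : 1 ≤ (L₁.map (cs ρ)).sum :=
        List.single_le_sum (fun _ _ => Nat.zero_le _) 1 (List.mem_map.2 ⟨_, hx, if_pos rfl⟩)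
      omega
  · have h5 : (lefts L₁).length ≤ L₁.length := List.length_filterMap_le _ _
    exact (h5.trans h2).trans (bound_mono hR)
  · rw [← List.sum_append, ← List.map_append, ← (hp.map cn).sum_eq, hcn]
  · intro ρ
    rw [← hge L₁ h3 ρ]
    omega
  · intro ρ
    rw [← hge L₂ h4 ρ]
    omega

end Pool.Agent.Q68.GT
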