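import Pool.Agent.H914R2.ExtOp

/-!
# External products of correspondences between different varieties
-/

set_option linter.unusedVariables false
set_option linter.unusedSectionVars false

open CategoryTheory AlgebraicGeometry Finset TensorProduct

universe u v

namespace Pool.Agent.Q68.GT

open Pool.Agent.H914 VarClass Obj WeilCohomology

variable {k : Type u} [Field k] {𝒱 : VarClass k} {ops : CycleOps 𝒱}
  {W : WeilCohomology.{u, v} ops} {Y Z Y' Z' : 𝒱.Obj}

/-- The projection `(Y × Z) × (Y' × Z') → Y × Y'`. -/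
noncomputable def p1 (Y Z Y' Z' : 𝒱.Obj) : (Y.prod Z).prod (Y'.prod Z') ⟶ Y.prod Y' :=
  Obj.lift (fst (Y.prod Z) (Y'.prod Z') ≫ fst Y Z) (snd (Y.prod Z) (Y'.prod Z') ≫ fst Y' Z')

/-- The projection `(Y × Z) × (Y' × Z') → Z × Z'`. -/
noncomputable def p2 (Y Z Y' Z' : 𝒱.Obj) : (Y.prod Z).prod (Y'.prod Z') ⟶ Z.prod Z' :=
  Obj.lift (fst (Y.prod Z) (Y'.prod Z') ≫ snd Y Z) (snd (Y.prod Z) (Y'.prod Z') ≫ snd Y' Z')

lemma p1_tmul (a : W.H Y) (a' : W.H Y') :
    W.map (p1 Y Z Y' Z') (W.map (fst Y Y') a * W.map (snd Y Y') a') =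
      W.map (fst _ _) (W.map (fst Y Z) a) * W.map (snd _ _) (W.map (fst Y' Z') a') := by
  have e1 : p1 Y Z Y' Z' ≫ fst Y Y' = fst (Y.prod Z) (Y'.prod Z') ≫ fst Y Z := Obj.lift_fst _ _
  have e2 : p1 Y Z Y' Z' ≫ snd Y Y' = snd (Y.prod Z) (Y'.prod Z') ≫ fst Y' Z' :=
    Obj.lift_snd _ _
  rw [map_mul (W.map (p1 Y Z Y' Z')), ← W.map_comp, ← W.map_comp, e1, e2, W.map_comp, W.map_comp]

lemma p2_tmul (b : W.H Z) (b' : W.H Z') :
    W.map (p2 Y Z Y' Z') (W.map (fst Z Z') b * W.map (snd Z Z') b') =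
      W.map (fst _ _) (W.map (snd Y Z) b) * W.map (snd _ _) (W.map (snd Y' Z') b') := by
  have e1 : p2 Y Z Y' Z' ≫ fst Z Z' = fst (Y.prod Z) (Y'.prod Z') ≫ snd Y Z := Obj.lift_fst _ _
  have e2 : p2 Y Z Y' Z' ≫ snd Z Z' = snd (Y.prod Z) (Y'.prod Z') ≫ snd Y' Z' :=
    Obj.lift_snd _ _
  rw [map_mul (W.map (p2 Y Z Y' Z')), ← W.map_comp, ← W.map_comp, e1, e2, W.map_comp, W.map_comp]

lemma push_ext' (A : W.H (Y.prod Y')) (B : W.H (Z.prod Z')) :
    W.push (snd (Y.prod Z) (Y'.prod Z')) (W.map (p1 Y Z Y' Z') A * W.map (p2 Y Z Y' Z') B) =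
      W.map (fst Y' Z') (W.push (snd Y Y') A) * W.map (snd Y' Z') (W.push (snd Z Z') B) := by
  refine W.kunneth_induction (p := fun A =>
    W.push (snd (Y.prod Z) (Y'.prod Z')) (W.map (p1 Y Z Y' Z') A * W.map (p2 Y Z Y' Z') B) =
      W.map (fst Y' Z') (W.push (snd Y Y') A) * W.map (snd Y' Z') (W.push (snd Z Z') B)) ?_ ?_ A
  · intro a b ha hb
    rw [map_add, add_mul, map_add, ha, hb, map_add, map_add, add_mul]
  intro i j a ha a' ha'
  refine W.kunneth_induction (p := fun B =>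
    W.push (snd (Y.prod Z) (Y'.prod Z'))
      (W.map (p1 Y Z Y' Z') (W.map (fst Y Y') a * W.map (snd Y Y') a') *
        W.map (p2 Y Z Y' Z') B) =
      W.map (fst Y' Z') (W.push (snd Y Y') (W.map (fst Y Y') a * W.map (snd Y Y') a')) *
        W.map (snd Y' Z') (W.push (snd Z Z') B)) ?_ ?_ B
  · intro a b ha hb
    rw [map_add, mul_add, map_add, ha, hb, map_add, map_add, mul_add]
  intro l m b hb b' _
  rw [p1_tmul, p2_tmul]
  have hsw : W.map (snd _ _) (W.map (fst Y' Z') a') * W.map (fst _ _) (W.map (snd Y Z) b) =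
      (-1 : W.K) ^ (j * l) • (W.map (fst (Y.prod Z) (Y'.prod Z')) (W.map (snd Y Z) b) *
        W.map (snd (Y.prod Z) (Y'.prod Z')) (W.map (fst Y' Z') a')) :=
    W.comm (W.map_mem _ (W.map_mem _ ha')) (W.map_mem _ (W.map_mem _ hb))
  have e1 : W.map (fst _ _) (W.map (fst Y Z) a) * W.map (snd _ _) (W.map (fst Y' Z') a') *
      (W.map (fst (Y.prod Z) (Y'.prod Z')) (W.map (snd Y Z) b) *
        W.map (snd (Y.prod Z) (Y'.prod Z')) (W.map (snd Y' Z') b')) =
      (-1 : W.K) ^ (j * l) • (W.map (fst _ _) (W.map (fst Y Z) a * W.map (snd Y Z) b) *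
        W.map (snd _ _) (W.map (fst Y' Z') a' * W.map (snd Y' Z') b')) := by
    rw [map_mul (W.map (fst (Y.prod Z) (Y'.prod Z'))),
      map_mul (W.map (snd (Y.prod Z) (Y'.prod Z'))),
      mul_assoc, ← mul_assoc (W.map (snd _ _) (W.map (fst Y' Z') a')), hsw, smul_mul_assoc,
      mul_smul_comm, mul_assoc, mul_assoc]
  rw [e1, map_smul, push_snd, W.tr_prod, push_snd, push_snd, map_smul, map_smul, smul_mul_assoc,
    mul_smul_comm, smul_smul, smul_smul]
  by_cases hl : l = 2 * Z.dim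
  · have hs : (-1 : W.K) ^ (j * l) = 1 := by
      rw [hl, mul_left_comm, pow_mul]
      simp
    rw [hs, one_mul]
  · rw [W.tr_eq_zero hb hl]
    simp

/-- The external product of correspondences. -/
lemma corr_ext' (c : W.H (Y.prod Y')) {p : ℕ} {d : W.H (Z.prod Z')} (hd : d ∈ W.gr _ (2 * p))
    (a : W.H Y) (b : W.H Z) :
    W.corr (W.map (p1 Y Z Y' Z') c * W.map (p2 Y Z Y' Z') d)
      (W.map (fst Y Z) a * W.map (snd Y Z) b) =
      W.map (fst Y' Z') (W.corr c a) * W.map (snd Y' Z') (W.corr d b) := by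
  rw [corr_apply, corr_apply, corr_apply, ← push_ext']
  congr 1
  have e1 : W.map (fst _ _) (W.map (fst Y Z) a) =
      W.map (p1 Y Z Y' Z') (W.map (fst Y Y') a) := by
    have := p1_tmul (W := W) (Z := Z) (Z' := Z') a (1 : W.H Y')
    rw [map_one, map_one, map_one, mul_one, mul_one] at this
    exact this.symm
  have e2 : W.map (fst _ _) (W.map (snd Y Z) b) =
      W.map (p2 Y Z Y' Z') (W.map (fst Z Z') b) := by
    have := p2_tmul (W := W) (Y := Y) (Y' := Y') b (1 : W.H Z')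
    rw [map_one, map_one, map_one, mul_one, mul_one] at this
    exact this.symm
  rw [map_mul (W.map (fst (Y.prod Z) (Y'.prod Z'))), e1, e2, map_mul (W.map (p1 Y Z Y' Z')),
    map_mul (W.map (p2 Y Z Y' Z')), mul_assoc, ← mul_assoc (W.map (p2 Y Z Y' Z') d),
    W.even_comm (W.map_mem _ hd) (W.map (p1 Y Z Y' Z') _)]
  simp only [mul_assoc]

/-- External products of correspondences are correspondences. -/
lemma exists_ext {d e : ℤ} {φ : W.H Y →ₗ[W.K] W.H Y'} {ψ : W.H Z →ₗ[W.K] W.H Z'}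
    (hφ : φ ∈ KOp W Y Y' d) (hψ : ψ ∈ KOp W Z Z' e) :
    ∃ ω ∈ KOp W (Y.prod Z) (Y'.prod Z') (d + e), ∀ a b,
      ω (W.map (fst Y Z) a * W.map (snd Y Z) b) =
        W.map (fst Y' Z') (φ a) * W.map (snd Y' Z') (ψ b) := by
  induction hφ using Submodule.span_induction with
  | mem x hx =>
    obtain ⟨p, hp, z, hz, rfl⟩ := hx
    induction hψ using Submodule.span_induction with
    | mem x hx =>
      obtain ⟨p', hp', w, hw, rfl⟩ := hx
      have hcyc := ops.mul_mem (ops.pull_mem (p1 Y Z Y' Z') hz) (ops.pull_mem (p2 Y Z Y' Z') hw)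
      refine ⟨W.corr (W.cl _ (ops.mul (ops.pull (p1 Y Z Y' Z') z) (ops.pull (p2 Y Z Y' Z') w))),
        KOp.gen (by rw [dim_prod]; push_cast; omega) hcyc, fun a b => ?_⟩
      rw [W.cl_mul, W.cl_pull, W.cl_pull, corr_ext' _ (W.cl_mem hw)]
    | zero => exact ⟨0, Submodule.zero_mem _, fun a b => by simp⟩
    | add x y _ _ hx hy =>
      obtain ⟨ω, hω, h⟩ := hx
      obtain ⟨ω', hω', h'⟩ := hy
      refine ⟨ω + ω', Submodule.add_mem _ hω hω', fun a b => ?_⟩
      rw [LinearMap.add_apply, h, h', LinearMap.add_apply, map_add, mul_add]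
    | smul c x _ hx =>
      obtain ⟨ω, hω, h⟩ := hx
      refine ⟨c • ω, Submodule.smul_mem _ _ hω, fun a b => ?_⟩
      rw [LinearMap.smul_apply, h, LinearMap.smul_apply, map_smul, mul_smul_comm]
  | zero => exact ⟨0, Submodule.zero_mem _, fun a b => by simp⟩
  | add x y _ _ hx hy =>
    obtain ⟨ω, hω, h⟩ := hx
    obtain ⟨ω', hω', h'⟩ := hy
    refine ⟨ω + ω', Submodule.add_mem _ hω hω', fun a b => ?_⟩
    rw [LinearMap.add_apply, h, h', LinearMap.add_apply, map_add, add_mul]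
  | smul c x _ hx =>
    obtain ⟨ω, hω, h⟩ := hx
    refine ⟨c • ω, Submodule.smul_mem _ _ hω, fun a b => ?_⟩
    rw [LinearMap.smul_apply, h, LinearMap.smul_apply, map_smul, smul_mul_assoc]

end Pool.Agent.Q68.GT
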