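import Pool.Agent.Q68.FD.Slope
import Pool.Agent.Q68.GT.Comb

/-!
# Divisibility of products of Weil numbers by powers of `q`, and slopes
-/

set_option autoImplicit false

open Polynomial Pool.Agent.H485R3

universe v

namespace Pool.Agent.Q68.GT

open Pool.Agent.Q68.FD

variable {p e D : ℕ} [hp : Fact p.Prime]

/-- Products of Weil numbers divisible by `q ^ ν`. -/
lemma integral_iff {L : Type*} [Field L] [Algebra ℚ L] [FiniteDimensional ℚ L] [Normal ℚ L]
    (he : 0 < e) (hD : 0 < D) {β : Type*} (x : β → L) (w : β → ℕ) (P : β → ℤ[X])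
    (hP : ∀ i, IsWeilPoly p e D (w i) (P i)) (hx : ∀ i, eval₂ (Int.castRingHom L) (x i) (P i) = 0)
    (m : β → (L →ₐ[ℚ] PadicAlgCl p) → ℕ)
    (hm : ∀ i ψ, ‖ψ (x i)‖ ^ D * ((p : ℝ) ^ e) ^ m i ψ = 1) (l : List β) (ν : ℕ) :
    IsIntegral ℤ ((l.map x).prod / ((p : L) ^ e) ^ ν) ↔
      ∀ ψ, D * ν ≤ (l.map fun i => m i ψ).sum := by
  have hq := one_lt_q (p := p) he
  have hq0 : (0 : ℝ) < (p : ℝ) ^ e := zero_lt_one.trans hq
  have hintx : IsIntegral ℤ (l.map x).prod := by
    induction l with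
    | nil => simpa using isIntegral_one
    | cons i l ih =>
      rw [List.map_cons, List.prod_cons]
      exact (isIntegral_root (hP i).monic (hx i)).mul ih
  have key : ∀ ψ : L →ₐ[ℚ] PadicAlgCl p,
      ‖ψ ((l.map x).prod / ((p : L) ^ e) ^ ν)‖ ≤ 1 ↔ D * ν ≤ (l.map fun i => m i ψ).sum := by
    intro ψ
    have h1 : ‖ψ (l.map x).prod‖ ^ D * ((p : ℝ) ^ e) ^ (l.map fun i => m i ψ).sum = 1 := by
      rw [map_list_prod, List.map_map, list_norm]
      exact list_slope hq0 _ _ l fun i _ => hm i ψ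
    rw [map_div₀, map_pow, map_pow, map_natCast, norm_div, ← pow_mul, norm_q, pow_mul,
      div_inv_eq_mul, ← pow_le_one_iff_of_nonneg (by positivity) hD.ne', mul_pow, ← pow_mul]
    rw [← pow_le_pow_iff_right₀ hq]
    have h2 : (0 : ℝ) < ((p : ℝ) ^ e) ^ (l.map fun i => m i ψ).sum := by positivity
    constructor
    · intro h
      have h3 := mul_le_mul_of_nonneg_right h h2.le
      rw [one_mul, mul_right_comm, h1, one_mul, mul_comm ν D] at h3
      exact h3
    · intro h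
      have h3 : ‖ψ (l.map x).prod‖ ^ D * ((p : ℝ) ^ e) ^ (ν * D) ≤
          ‖ψ (l.map x).prod‖ ^ D * ((p : ℝ) ^ e) ^ (l.map fun i => m i ψ).sum := by
        rw [mul_comm ν D]
        exact mul_le_mul_of_nonneg_left h (by positivity)
      rwa [h1] at h3
  constructor
  · intro h ψ
    rw [← key]
    exact norm_le_one_of_isIntegral p _ (h.map (ψ.restrictScalars ℤ))
  · intro h
    apply isIntegral_of_norm_le
    intro r hr ψ
    by_cases hrp : r = p
    · subst hrp
      exact (key ψ).2 (h ψ)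
    · rw [map_div₀, map_pow, map_pow, map_natCast, norm_div, ← pow_mul,
        norm_prime_pow_ne r p hp.1 hrp, div_one]
      exact norm_le_one_of_isIntegral r _ (hintx.map (ψ.restrictScalars ℤ))

/-- **Levels.** -/
theorem exists_levels (he : 0 < e) (hD : 0 < D) {K : Type*} [Field K]
    [CharZero K] [IsAlgClosed K] {ι : Type v} [Finite ι] {b wmax : ℕ} (hb : Nat.card ι ≤ b)
    (α : ι → K) (w : ι → ℕ) (P : ι → ℤ[X]) (hw : ∀ i, w i ≤ wmax)
    (hP : ∀ i, IsWeilPoly p e D (w i) (P i))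
    (hα : ∀ i, eval₂ (Int.castRingHom K) (α i) (P i) = 0) :
    ∃ (R : Type v) (_ : Fintype R) (_ : Nonempty R) (m : ι → R → ℕ),
      Fintype.card R ≤ (D * wmax + 1) ^ b ∧ (∀ i ρ, m i ρ ≤ D * wmax) ∧
      ∀ (l : List ι) (ν : ℕ), IsIntegral ℤ ((l.map α).prod / ((p : K) ^ e) ^ ν) ↔
        ∀ ρ, D * ν ≤ (l.map fun i => m i ρ).sum := by
  classical
  have : Fintype ι := Fintype.ofFinite ι
  obtain ⟨L, _, _, hfd, hgal, hsp⟩ := exists_splitting
    (fun i => (P i).map (Int.castRingHom ℚ)) (fun i => by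
      exact ((hP i).monic.map _).ne_zero)
  let algK : Algebra ℚ K := DivisionRing.toRatAlgebra
  let θ : L →ₐ[ℚ] K := IsAlgClosed.lift
  have hx : ∀ i, ∃ x : L, eval₂ (Int.castRingHom L) x (P i) = 0 ∧ θ x = α i := by
    intro i
    obtain ⟨x, h1, h2⟩ := exists_root_lift ((hP i).monic.map (Int.castRingHom ℚ)).ne_zero (hsp i) θ
      (α i) (by
        rw [aeval_def, eval₂_map, ← hα i]
        congr 1
        exact RingHom.ext_int _ _)
    refine ⟨x, ?_, h2⟩
    rw [aeval_def, eval₂_map] at h1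
    rw [← h1]
    congr 1
    exact RingHom.ext_int _ _
  choose x hx1 hx2 using hx
  let τ : L →ₐ[ℚ] ℂ := IsAlgClosed.lift
  choose m hm1 hm2 using fun (i : ι) (ψ : L →ₐ[ℚ] PadicAlgCl p) =>
    exists_slope he (hP i) (hx1 i) τ ψ
  have hm3 : ∀ i ψ, m i ψ ≤ D * wmax := fun i ψ =>
    (hm2 i ψ).trans (Nat.mul_le_mul_left _ (hw i))
  let F : (L →ₐ[ℚ] PadicAlgCl p) → (ι → Fin (D * wmax + 1)) :=
    fun ψ i => ⟨m i ψ, Nat.lt_succ_of_le (hm3 i ψ)⟩
  refine ⟨Set.range F, inferInstance, ⟨⟨F IsAlgClosed.lift, _, rfl⟩⟩,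
    fun i ρ => (ρ.1 i : ℕ), ?_, ?_, ?_⟩
  · calc Fintype.card (Set.range F) ≤ Fintype.card (ι → Fin (D * wmax + 1)) :=
          Fintype.card_subtype_le _
      _ = (D * wmax + 1) ^ Fintype.card ι := by rw [Fintype.card_fun, Fintype.card_fin]
      _ ≤ (D * wmax + 1) ^ b := by
        apply Nat.pow_le_pow_right (by omega)
        rwa [Nat.card_eq_fintype_card] at hb
  · intro i ρ
    exact Nat.le_of_lt_succ (ρ.1 i).2
  · intro l ν
    have h1 : (l.map α).prod = θ (l.map x).prod := by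
      rw [map_list_prod, List.map_map]
      congr 1
      apply List.map_congr_left
      intro i _
      exact (hx2 i).symm
    have h2 : ((p : K) ^ e) ^ ν = θ (((p : L) ^ e) ^ ν) := by
      rw [map_pow, map_pow, map_natCast]
    rw [h1, h2, ← map_div₀]
    have h3 : IsIntegral ℤ (θ ((l.map x).prod / ((p : L) ^ e) ^ ν)) ↔
        IsIntegral ℤ ((l.map x).prod / ((p : L) ^ e) ^ ν) :=
      isIntegral_algHom_iff (θ.restrictScalars ℤ) θ.injective
    rw [h3, integral_iff he hD x w P hP hx1 m hm1]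
    constructor
    · rintro h ⟨_, ψ, rfl⟩
      exact h ψ
    · intro h ψ
      exact h ⟨F ψ, ψ, rfl⟩

end Pool.Agent.Q68.GT
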