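import Pool.Agent.Q68.GT.Niv
import Pool.Agent.Q68.GT.Slope
import Pool.Agent.Q68.FD.Main

/-!
# The finite determination of the generalized Tate conjecture for the powers of a variety
-/

set_option linter.unusedVariables false
set_option linter.unusedSectionVars false

open CategoryTheory AlgebraicGeometry

universe u v

namespace Pool.Agent.Q68.GT

open Polynomial Pool.Agent.H914 Pool.Agent.W534 VarClass Obj WeilCohomology Pool.Agent.Y163 Module
open Pool.Agent.Q68.FD

variable {k : Type u} [Field k] {𝒱 : VarClass k} {ops : CycleOps 𝒱}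
  {W : WeilCohomology.{u, v} ops} {X Y Z : 𝒱.Obj} {p : ℕ} {Φ : FrobSystem W p}

section Main

variable [hp : Fact p.Prime] {D : ℕ} {ι : Type v} (E : EBasis Φ X D ι)

variable {b A : ℕ} {R : Type v} [Fintype R] [Nonempty R] (m : ι → R → ℕ)
  (hR : Fintype.card R ≤ b) (hD : 0 < D) (hDA : D ≤ A) (hm : ∀ i ρ, m i ρ ≤ A)
  (hrel : ∀ (l : List ι) (ν : ℕ), IsIntegral ℤ ((l.map E.α).prod / ((p : W.K) ^ Φ.e X) ^ ν) ↔
    ∀ ρ, D * ν ≤ (l.map fun i => m i ρ).sum)

lemma pow_div_eq {K : Type*} [Field K] {x q : K} {ν s : ℕ} :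
    x ^ s / (q ^ s) ^ ν = (x / q ^ ν) ^ s := by
  rw [div_pow, ← pow_mul, ← pow_mul, mul_comm]

include hrel in
/-- The monomials above the level have the right Galois coniveau. -/
lemma mono_conv {n : ℕ} (g : Fin n → (Z ⟶ X)) (I : Fin n → ι) (l : List (Fin n)) (ν : ℕ)
    (hz : ∀ ρ, D * ν ≤ (l.map fun i => m (I i) ρ).sum)
    (h : GTCIn Φ Z (l.map fun i => E.B.deg (I i)).sum ν) :
    (l.map fun i => W.map (g i) (E.B.b (I i))).prod ∈
      geoConiv W Z (l.map fun i => E.B.deg (I i)).sum ν := by
  have h1 := (hrel (l.map I) ν).2 (fun ρ => by rw [List.map_map]; exact hz ρ)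
  rw [List.map_map] at h1
  obtain ⟨a, c, ha, hc, hac, h2⟩ := mono_gen E g I l
  refine h a ha ((l.map fun i => E.α (I i)).prod ^ c) ?_ ⟨?_, mono_gr E g I l⟩
  · have h3 : (card Φ Z a : W.K) = ((p : W.K) ^ Φ.e X) ^ c := by
      rw [card_cast, ← pow_mul]
      congr 1
      rw [mul_comm (Φ.e Z), hac, mul_comm]
    rw [h3, pow_div_eq]
    exact IsIntegral.pow h1 c
  · have h3 := h2 1
    rw [mul_one, mul_one] at h3
    exact h3

include hR hD hDA hm hrel in
/-- The monomials above the level have the right geometric coniveau. -/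
lemma mono_geo {n : ℕ}
    (hshort : ∀ r < (2 * b * A + 1) ^ b, ∀ i ν, GTCIn Φ (pw X r) i ν)
    (I : Fin (n + 1) → ι) : ∀ (s : ℕ) (l : List (Fin (n + 1))),
    l.length ≤ s → ∀ ν : ℕ, (∀ ρ, D * ν ≤ (l.map fun i => m (I i) ρ).sum) →
    (l.map fun i => W.map (pr X n i) (E.B.b (I i))).prod ∈
      geoConiv W (pw X n) (l.map fun i => E.B.deg (I i)).sum ν := by
  intro s
  induction s with
  | zero =>
    intro l hl ν hz
    rw [List.length_eq_zero_iff.1 (Nat.le_zero.1 hl)] at hz ⊢
    obtain ⟨ρ⟩ := ‹Nonempty R›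
    have h1 := hz ρ
    rw [List.map_nil, List.sum_nil] at h1
    have h2 : ν = 0 := by
      rcases Nat.eq_zero_or_pos ν with h | h
      · exact h
      · have := Nat.mul_pos hD h
        omega
    subst h2
    exact gr_le_geoConiv _ (W.one_mem _)
  | succ s ih =>
    intro l hl ν hz
    rcases eq_or_ne l [] with rfl | hne
    · exact ih [] (Nat.zero_le _) ν hz
    obtain ⟨l₁, l₂, ν₁, ν₂, hperm, hl₁, hlen, hν, hz₁, hz₂⟩ := exists_split_ge hR hD hDA
      (fun i => m (I i)) (fun i ρ => hm (I i) ρ) l hne ν hz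
    have hlen₂ : l₂.length ≤ s := by
      have h := hperm.length_eq
      rw [List.length_append] at h
      have := List.length_pos_iff.2 hl₁
      omega
    obtain ⟨ε, hε, hprod⟩ := prod_perm (W := W) (Z := pw X n)
      (hperm.map (fun i => W.map (pr X n i) (E.B.b (I i)))) (by
        intro x hx
        obtain ⟨i, -, rfl⟩ := List.mem_map.1 hx
        exact ⟨_, W.map_mem _ (E.B.mem _)⟩)
    rw [hprod, List.map_append, List.prod_append, (hperm.map _).sum_eq, List.map_append,
      List.sum_append, ← hν]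
    refine Submodule.smul_mem _ _ (geoConiv.mul ?_ (ih l₂ hlen₂ ν₂ hz₂))
    -- the short factor
    obtain ⟨r, hr⟩ : ∃ r, l₁.length = r + 1 := by
      obtain ⟨r, hr⟩ := Nat.exists_eq_succ_of_ne_zero (fun h => hl₁ (List.length_eq_zero_iff.1 h))
      exact ⟨r, hr⟩
    let g : Fin (r + 1) → Fin (n + 1) := fun i => l₁.get (i.cast hr.symm)
    have hg : l₁ = List.ofFn g := by
      apply List.ext_get
      · rw [List.length_ofFn, hr]
      · intro i h1 h2
        rw [List.get_ofFn]
        rfl
    have ht := mono_conv E m hrel (fun i => pr X r i) (fun i => I (g i))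
      (List.finRange (r + 1)) ν₁ (fun ρ => by
        have h := hz₁ ρ
        rw [hg, List.map_ofFn] at h
        rw [← List.ofFn_eq_map]
        exact h) (hshort r (by omega) _ _)
    have hsum : (l₁.map fun i => E.B.deg (I i)).sum =
        ((List.finRange (r + 1)).map fun i => E.B.deg (I (g i))).sum := by
      rw [hg, List.map_ofFn, ← List.ofFn_eq_map]
      rfl
    rw [hsum]
    have hmap := geoConiv.map (projTo X n r g) ht
    have heq : W.map (projTo X n r g)
        ((List.finRange (r + 1)).map fun i => W.map (pr X r i) (E.B.b (I (g i)))).prod =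
        (l₁.map fun i => W.map (pr X n i) (E.B.b (I i))).prod := by
      rw [hg, List.map_ofFn, ← List.ofFn_eq_map, map_list_prod, List.map_ofFn]
      congr 2
      funext i
      rw [Function.comp_apply, Function.comp_apply, ← W.map_comp, projTo, tup_pr]
    rw [heq] at hmap
    exact hmap

include hR hD hDA hm hrel in
/-- **Finite determination**, in terms of a basis. -/
theorem gtc_of_basis [Finite ι]
    (hshort : ∀ r < (2 * b * A + 1) ^ b, ∀ i ν, GTCIn Φ (pw X r) i ν) (n i ν : ℕ) :
    GTCIn Φ (pw X n) i ν := by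
  classical
  have : Fintype ι := Fintype.ofFinite ι
  intro s hs α₀ hα₀ c hc
  obtain ⟨bm, hbm⟩ := exists_monBasis E.B n
  have hmon : ∀ I, bm I = ((List.finRange (n + 1)).map
      fun i => W.map (pr X n i) (E.B.b (I i))).prod := by
    intro I
    rw [hbm, mon_eq, List.ofFn_eq_map]
  rw [← bm.sum_repr c]
  refine Submodule.sum_mem _ fun I _ => ?_
  by_cases hI : bm.repr c I = 0
  · rw [hI, zero_smul]
    exact Submodule.zero_mem _
  refine Submodule.smul_mem _ _ ?_
  -- the degree
  have hdeg : ((List.finRange (n + 1)).map fun i => E.B.deg (I i)).sum = i := by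
    by_contra hne
    apply hI
    exact repr_eq_zero (W.isInternal (pw X n)).submodule_iSupIndep bm
      (fun I => ((List.finRange (n + 1)).map fun i => E.B.deg (I i)).sum) (fun I => by
        rw [hmon]; exact mono_gr E _ _ _) hc.2 hne
  -- the eigenvalue
  have hint : ∀ ρ, D * ν ≤ ((List.finRange (n + 1)).map fun i => m (I i) ρ).sum := by
    have hrel' := (hrel ((List.finRange (n + 1)).map I) ν).1
    simp only [List.map_map] at hrel'
    obtain ⟨a, c', ha, hc', hac, h⟩ := frob_comm_fin (Φ := Φ) (fun i => pr X n i)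
    have heig : ∀ I : Fin (n + 1) → ι, bm I ∈ (frob Φ (pw X n) (a * s)).maxGenEigenspace
        (((List.finRange (n + 1)).map fun i => E.α (I i)).prod ^ (c' * s)) := by
      intro I
      rw [hmon]
      have h1 : ((List.finRange (n + 1)).map fun i => E.α (I i)).prod ^ (c' * s) =
          ((List.finRange (n + 1)).map fun i => E.α (I i) ^ (c' * s)).prod := by
        generalize List.finRange (n + 1) = l
        induction l with
        | nil => simp
        | cons i l ih =>
          rw [List.map_cons, List.prod_cons, mul_pow, ih, List.map_cons, List.prod_cons]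
      rw [h1]
      apply gen_prod
      · intro x y
        rw [frob_apply, map_mul]
        rfl
      · rw [frob_apply, map_one]
      · intro i _
        have h2 : E.B.b (I i) ∈ (frob Φ X (c' * s)).maxGenEigenspace (E.α (I i) ^ (c' * s)) := by
          rw [frob_eq_pow]
          exact gen_mono _ _ _ (E.mem (I i))
        exact gen_intertwine (θ := (W.map (pr X n i)).toLinearMap) (fun y => (h i s y).symm) h2
    have hc1 : c ∈ (frob Φ (pw X n) (a * s)).maxGenEigenspace (α₀ ^ a) := by
      have h1 := gen_mono (frob Φ (pw X n) s) α₀ a hc.1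
      rwa [← frob_mul_eq, mul_comm s a] at h1
    have heq : ((List.finRange (n + 1)).map fun i => E.α (I i)).prod ^ (c' * s) = α₀ ^ a := by
      by_contra hne
      apply hI
      exact repr_eq_zero (Module.End.independent_maxGenEigenspace (frob Φ (pw X n) (a * s))) bm
        (fun I => ((List.finRange (n + 1)).map fun i => E.α (I i)).prod ^ (c' * s)) heig hc1 hne
    refine hrel' ?_
    have h3 : (((List.finRange (n + 1)).map fun i => E.α (I i)).prod /
        ((p : W.K) ^ Φ.e X) ^ ν) ^ (c' * s) = (α₀ / (card Φ (pw X n) s : W.K) ^ ν) ^ a := by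
      rw [div_pow, div_pow, heq]
      congr 1
      rw [card_cast, ← pow_mul, ← pow_mul, ← pow_mul, ← pow_mul]
      congr 1
      calc _ = (c' * Φ.e X) * (ν * s) := by ring
        _ = _ := by rw [← hac]; ring
    have h4 : IsIntegral ℤ ((((List.finRange (n + 1)).map fun i => E.α (I i)).prod /
        ((p : W.K) ^ Φ.e X) ^ ν) ^ (c' * s)) := by
      rw [h3]
      exact IsIntegral.pow hα₀ a
    exact IsIntegral.of_pow (Nat.mul_pos hc' hs) h4
  rw [hmon]
  have h5 := mono_geo E m hR hD hDA hm hrel hshort I _ (List.finRange (n + 1)) le_rfl ν hint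
  rwa [hdeg] at h5

end Main

/-- **Finite determination of the generalized Tate conjecture.** -/
theorem gtc_of_short [IsAlgClosed W.K] [Fact p.Prime] {b D : ℕ} (hD : 0 < D)
    (hb : finrank W.K (W.H X) ≤ b) (hX : HasWeilPolys Φ X D)
    (h : ∀ r < boundG b (D * (2 * X.dim + 1)), ∀ i ν, GTCIn Φ (pw X r) i ν) (n i ν : ℕ) :
    GTCIn Φ (pw X n) i ν := by
  obtain ⟨ι, hι, ⟨E⟩⟩ := exists_ebasis hX
  have hcard : Nat.card ι ≤ b := by
    rw [← Module.finrank_eq_nat_card_basis E.B.b]
    exact hb
  obtain ⟨R, _, _, m, hR, hm, hrel⟩ := exists_levels (Φ.e_pos X) hD hcard E.α E.B.deg E.P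
    (fun i => (E.deg_le i).trans (Nat.le_succ _)) E.weil E.root
  exact gtc_of_basis E m hR hD (Nat.le_mul_of_pos_right _ (by omega)) hm hrel h n i ν

end Pool.Agent.Q68.GT
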