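import Pool.Agent.Q68.GT.Ext
import Pool.Agent.Q68.GT.Defs
import Pool.Agent.Y163.Pow

/-!
# Functoriality and multiplicativity of the geometric coniveau filtration
-/

set_option linter.unusedVariables false
set_option linter.unusedSectionVars false

open CategoryTheory AlgebraicGeometry

universe u v

namespace Pool.Agent.Q68.GT

open Pool.Agent.H914 Pool.Agent.W534 VarClass Obj WeilCohomology Pool.Agent.Y163

variable {k : Type u} [Field k] {𝒱 : VarClass k} {ops : CycleOps 𝒱}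
  {W : WeilCohomology.{u, v} ops} {X Y Z : 𝒱.Obj}

lemma geoConiv.of_kop {i ν j : ℕ} {φ : W.H Y →ₗ[W.K] W.H X} (hφ : φ ∈ KOp W Y X ν) {y : W.H Y}
    (hy : y ∈ W.gr Y j) (h : j + 2 * ν = i) : φ y ∈ geoConiv W X i ν := by
  induction hφ using Submodule.span_induction with
  | mem f hf =>
    obtain ⟨q, hq, z, hz, rfl⟩ := hf
    obtain rfl : q = Y.dim + ν := by exact_mod_cast hq
    exact Submodule.subset_span ⟨Y, z, j, y, hz, hy, h, rfl⟩
  | zero => exact Submodule.zero_mem _
  | add f g _ _ hf hg => exact Submodule.add_mem _ hf hg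
  | smul c f _ hf => exact Submodule.smul_mem _ _ hf

lemma geoConiv.ind {i ν : ℕ} {P : W.H X → Prop} (h0 : P 0) (hadd : ∀ a b, P a → P b → P (a + b))
    (hsmul : ∀ (t : W.K) a, P a → P (t • a))
    (h : ∀ (Y : 𝒱.Obj) (φ : W.H Y →ₗ[W.K] W.H X) (j : ℕ) (y : W.H Y), φ ∈ KOp W Y X ν →
      y ∈ W.gr Y j → j + 2 * ν = i → P (φ y)) {x : W.H X} (hx : x ∈ geoConiv W X i ν) : P x := by
  induction hx using Submodule.span_induction with
  | mem x hx =>
    obtain ⟨Y, z, j, y, hz, hy, hj, rfl⟩ := hx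
    exact h Y _ j y (KOp.gen (by push_cast; ring) hz) hy hj
  | zero => exact h0
  | add x y _ _ hx hy => exact hadd x y hx hy
  | smul t x _ hx => exact hsmul t x hx

lemma gr_le_geoConiv (i : ℕ) : W.gr X i ≤ geoConiv W X i 0 := fun x hx => by
  have := geoConiv.of_kop (ν := 0) (KOp.id (W := W) X) hx (by ring : i + 2 * 0 = i)
  exact this

lemma geoConiv.map (f : Z ⟶ X) {i ν : ℕ} {x : W.H X} (hx : x ∈ geoConiv W X i ν) :
    W.map f x ∈ geoConiv W Z i ν := by
  refine geoConiv.ind (P := fun x => W.map f x ∈ geoConiv W Z i ν) ?_ ?_ ?_ ?_ hx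
  · rw [map_zero]; exact Submodule.zero_mem _
  · intro a b ha hb; rw [map_add]; exact Submodule.add_mem _ ha hb
  · intro t a ha; rw [map_smul]; exact Submodule.smul_mem _ _ ha
  · intro Y φ j y hφ hy hj
    have h1 := KOp.comp (map_mem_KOp (W := W) f) hφ
    exact geoConiv.of_kop (φ := (W.map f).toLinearMap ∘ₗ φ) (KOp.cast h1 (by ring)) hy hj

lemma geoConiv.mul {i i' ν ν' : ℕ} {x x' : W.H X} (hx : x ∈ geoConiv W X i ν)
    (hx' : x' ∈ geoConiv W X i' ν') : x * x' ∈ geoConiv W X (i + i') (ν + ν') := by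
  refine geoConiv.ind (P := fun x => x * x' ∈ geoConiv W X (i + i') (ν + ν')) ?_ ?_ ?_ ?_ hx
  · rw [zero_mul]; exact Submodule.zero_mem _
  · intro a b ha hb; rw [add_mul]; exact Submodule.add_mem _ ha hb
  · intro t a ha; rw [smul_mul_assoc]; exact Submodule.smul_mem _ _ ha
  · intro Y φ j y hφ hy hj
    refine geoConiv.ind (P := fun x' => φ y * x' ∈ geoConiv W X (i + i') (ν + ν')) ?_ ?_ ?_ ?_ hx'
    · rw [mul_zero]; exact Submodule.zero_mem _
    · intro a b ha hb; rw [mul_add]; exact Submodule.add_mem _ ha hb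
    · intro t a ha; rw [mul_smul_comm]; exact Submodule.smul_mem _ _ ha
    · intro Y' ψ j' y' hψ hy' hj'
      obtain ⟨ω, hω, h⟩ := exists_ext hφ hψ
      have h1 := h y y'
      have h2 : W.map (diag X) (ω (W.map (fst Y Y') y * W.map (snd Y Y') y')) = φ y * ψ y' := by
        rw [h1, map_mul, ← W.map_comp, ← W.map_comp]
        have e1 : diag X ≫ fst X X = 𝟙 X := Obj.lift_fst _ _
        have e2 : diag X ≫ snd X X = 𝟙 X := Obj.lift_snd _ _
        rw [e1, e2, W.map_id, W.map_id]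
      rw [← h2]
      have h3 := KOp.comp (map_mem_KOp (W := W) (diag X)) hω
      refine geoConiv.of_kop (φ := (W.map (diag X)).toLinearMap ∘ₗ ω)
        (KOp.cast h3 (by push_cast; ring)) (W.mul_mem (W.map_mem _ hy) (W.map_mem _ hy')) ?_
      omega

end Pool.Agent.Q68.GT
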